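import Pool.Agent.K4H14.FG.Main

/-!
Short intervals and progressions with small moduli: local factors and inclusion and exclusion for a
general system.
-/

set_option autoImplicit false

namespace Pool.Agent.K4H14.MT

open Finset
open Pool.Agent.K4H14.FG (win UJ PJ th UJ_prime PJ_pos PJ_primeFactors PJ_dvd win_disj coprime_iff th_half)

/-- `F` is periodic modulo every integer, and `P n` implies that `F n` has no small factor -/
structure Sys (F : ℕ → ℕ) (P : ℕ → Prop) : Prop where
  per : ∀ m n : ℕ, F (n + m) ≡ F n [MOD m]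
  cop : ∀ n q : ℕ, 1 ≤ q → q < n → P n → Nat.Coprime (F n) q
  pos : ∀ n, 1 ≤ n → 0 < F n

/-- the number of the classes `b` modulo `d` with `F b` prime to `d` -/
def cls (F : ℕ → ℕ) (d : ℕ) : ℕ := ((range d).filter (fun b => Nat.Coprime (F b) d)).card

/-- the local factor -/
noncomputable def lf (F : ℕ → ℕ) (p : ℕ) : ℝ :=
  1 - (((range p).filter (fun b => p ∣ F b)).card : ℝ) / p

theorem cls_one (F : ℕ → ℕ) : cls F 1 = 1 := by
  unfold cls
  simp

theorem cls_le (F : ℕ → ℕ) (d : ℕ) : cls F d ≤ d := by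
  unfold cls
  refine (card_filter_le _ _).trans ?_
  simp

variable {F : ℕ → ℕ}

theorem per_mod (hF : ∀ m n : ℕ, F (n + m) ≡ F n [MOD m]) {d a b : ℕ} (h : a ≡ b [MOD d]) :
    F a ≡ F b [MOD d] := by
  have key : ∀ a k : ℕ, F (a + k * d) ≡ F a [MOD d] := by
    intro a k
    induction k with
    | zero => simp; exact Nat.ModEq.refl _
    | succ k ih =>
      have h1 := hF d (a + k * d)
      have e : a + (k + 1) * d = a + k * d + d := by ring
      rw [e]
      exact h1.trans ih
  have h1 : ∀ x : ℕ, F x ≡ F (x % d) [MOD d] := by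
    intro x
    have h2 := key (x % d) (x / d)
    have e : x % d + x / d * d = x := by
      rw [mul_comm]
      exact Nat.mod_add_div x d
    rw [e] at h2
    exact h2
  have h2 := h1 a
  have h3 := h1 b
  rw [show a % d = b % d from h] at h2
  exact h2.trans h3.symm

theorem cop_mod (hF : ∀ m n : ℕ, F (n + m) ≡ F n [MOD m]) {d a b : ℕ} (h : a ≡ b [MOD d]) :
    Nat.Coprime (F a) d ↔ Nat.Coprime (F b) d := by
  have h1 := (per_mod hF h).gcd_eq
  simp only [Nat.Coprime, h1]

theorem cls_mul (hF : ∀ m n : ℕ, F (n + m) ≡ F n [MOD m]) (d e : ℕ) (hd : 0 < d) (he : 0 < e)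
    (hde : Nat.Coprime d e) : cls F (d * e) = cls F d * cls F e := by
  unfold cls
  rw [← card_product]
  refine card_nbij' (fun b => (b % d, b % e)) (fun x => (Nat.chineseRemainder hde x.1 x.2 : ℕ))
    ?_ ?_ ?_ ?_
  · intro b hb
    simp only [coe_filter, mem_range, Set.mem_setOf_eq, coe_product, Set.mem_prod] at hb ⊢
    have h1 := hb.2
    rw [Nat.coprime_mul_iff_right] at h1
    refine ⟨⟨Nat.mod_lt _ hd, ?_⟩, Nat.mod_lt _ he, ?_⟩
    · exact (cop_mod hF (Nat.mod_modEq b d)).2 h1.1
    · exact (cop_mod hF (Nat.mod_modEq b e)).2 h1.2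
  · intro x hx
    simp only [coe_filter, mem_range, Set.mem_setOf_eq, coe_product, Set.mem_prod] at hx ⊢
    refine ⟨Nat.chineseRemainder_lt_mul hde _ _ hd.ne' he.ne', ?_⟩
    rw [Nat.coprime_mul_iff_right]
    have h2 := (Nat.chineseRemainder hde x.1 x.2).2
    exact ⟨(cop_mod hF h2.1).2 hx.1.2, (cop_mod hF h2.2).2 hx.2.2⟩
  · intro b hb
    simp only [coe_filter, mem_range, Set.mem_setOf_eq] at hb
    have h2 := (Nat.chineseRemainder hde (b % d) (b % e)).2
    have h3 : (Nat.chineseRemainder hde (b % d) (b % e) : ℕ) ≡ b [MOD d * e] := by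
      rw [← Nat.modEq_and_modEq_iff_modEq_mul hde]
      exact ⟨h2.1.trans (Nat.mod_modEq _ _), h2.2.trans (Nat.mod_modEq _ _)⟩
    exact Nat.ModEq.eq_of_lt_of_lt h3 (Nat.chineseRemainder_lt_mul hde _ _ hd.ne' he.ne') hb.1
  · intro x hx
    simp only [coe_filter, mem_range, Set.mem_setOf_eq, coe_product, Set.mem_prod] at hx
    have h2 := (Nat.chineseRemainder hde x.1 x.2).2
    ext
    · change (Nat.chineseRemainder hde x.1 x.2 : ℕ) % d = x.1
      rw [h2.1, Nat.mod_eq_of_lt hx.1.1]
    · change (Nat.chineseRemainder hde x.1 x.2 : ℕ) % e = x.2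
      rw [h2.2, Nat.mod_eq_of_lt hx.2.1]

theorem cls_prime (p : ℕ) (hp : p.Prime) : (cls F p : ℝ) = p * lf F p := by
  unfold cls lf
  have h1 : ((range p).filter (fun b => Nat.Coprime (F b) p)).card +
      ((range p).filter (fun b => p ∣ F b)).card = p := by
    have h2 := card_filter_add_card_filter_not (s := range p) (fun b => p ∣ F b)
    rw [card_range] at h2
    have h3 : (range p).filter (fun b => Nat.Coprime (F b) p) =
        (range p).filter (fun b => ¬ p ∣ F b) := by
      apply filter_congr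
      intro b _
      rw [Nat.coprime_comm, Nat.Prime.coprime_iff_not_dvd hp]
    rw [h3]
    omega
  have hp0 : (p : ℝ) ≠ 0 := by exact_mod_cast hp.ne_zero
  have h4 : (((range p).filter (fun b => Nat.Coprime (F b) p)).card : ℝ) +
      ((range p).filter (fun b => p ∣ F b)).card = p := by exact_mod_cast h1
  field_simp
  linarith

theorem cls_prod (hF : ∀ m n : ℕ, F (n + m) ≡ F n [MOD m]) (T : Finset ℕ) (hT : ∀ p ∈ T, p.Prime) :
    (cls F (∏ p ∈ T, p) : ℝ) = (∏ p ∈ T, (p : ℝ)) * ∏ p ∈ T, lf F p := by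
  classical
  induction T using Finset.induction_on with
  | empty => simp [cls_one]
  | insert p T hp ih =>
    have hpp := hT p (mem_insert_self _ _)
    have hT' : ∀ q ∈ T, q.Prime := fun q hq => hT q (mem_insert_of_mem hq)
    rw [prod_insert hp, prod_insert hp, prod_insert hp, cls_mul hF p _ hpp.pos
      (prod_pos fun q hq => (hT' q hq).pos)]
    · push_cast
      rw [cls_prime p hpp, ih hT']
      ring
    · apply Nat.Coprime.prod_right
      intro q hq
      rw [Nat.coprime_primes hpp (hT' q hq)]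
      rintro rfl
      exact hp hq

theorem cls_PJ (hF : ∀ m n : ℕ, F (n + m) ≡ F n [MOD m]) (z : ℝ) (hz : 1 ≤ z) (N : ℕ)
    (J : Finset ℕ) :
    (cls F (PJ z N J) : ℝ) = PJ z N J * ∏ j ∈ J, ∏ p ∈ win z N j, lf F p := by
  have h := cls_prod hF (UJ z N J) (UJ_prime z N J)
  unfold PJ
  rw [h, UJ, prod_biUnion (win_disj z hz N _), prod_biUnion (win_disj z hz N _)]
  congr 1
  push_cast
  rw [prod_biUnion (win_disj z hz N _)]

open Classical in
/-- no prime of the `j`-th window divides `F s` -/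
noncomputable def ch (F : ℕ → ℕ) (z : ℝ) (N s j : ℕ) : ℝ :=
  if ∀ p ∈ win z N j, ¬ p ∣ F s then 1 else 0

theorem prod_ch (z : ℝ) (N s : ℕ) (J : Finset ℕ) :
    ∏ j ∈ J, ch F z N s j = if Nat.Coprime (F s) (PJ z N J) then 1 else 0 := by
  classical
  unfold ch
  rw [prod_ite_zero, prod_const_one]
  congr 1
  rw [coprime_iff _ _ (PJ_pos z N J), PJ_primeFactors]
  simp only [UJ, mem_biUnion, eq_iff_iff]
  constructor
  · rintro h p ⟨j, hj, hp⟩
    exact h j hj p hp
  · intro h j hj p hp
    exact h p ⟨j, hj, hp⟩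

/-- one of the windows has no prime dividing `F s` -/
theorem ch_prod_zero (z : ℝ) (hz : 1 ≤ z) (N s : ℕ) (hs0 : 0 < F s)
    (hs : (F s : ℝ) < z ^ ((N : ℝ) / 2)) :
    ∏ j ∈ range N, (1 - ch F z N s j) = 0 := by
  classical
  by_contra hc
  rw [← ne_eq, prod_ne_zero_iff] at hc
  have h1 : ∀ j ∈ range N, ∃ p, p ∈ win z N j ∧ p ∣ F s := by
    intro j hj
    have := hc j hj
    by_contra h
    push Not at h
    apply this
    unfold ch
    rw [if_pos h, sub_self]
  choose! f hf using h1
  have hpr : ∀ j ∈ range N, (f j).Prime := fun j hj => by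
    have := (hf j hj).1
    unfold win at this
    exact (mem_filter.1 this).2
  have h2 : ∏ j ∈ range N, f j ∣ F s := by
    have hinj : Set.InjOn f (range N : Set ℕ) := by
      intro i hi j hj hij
      by_contra hne
      have h5 := win_disj z hz N (range N : Set ℕ) hi hj hne
      rw [Function.onFun, disjoint_left] at h5
      have h6 := (hf j (mem_coe.1 hj)).1
      rw [← hij] at h6
      exact h5 (hf i (mem_coe.1 hi)).1 h6
    rw [← prod_image (f := fun p => p) (g := f) (s := range N) hinj]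
    apply Finset.prod_primes_dvd
    · intro a ha
      rw [mem_image] at ha
      obtain ⟨j, hj, rfl⟩ := ha
      exact (hpr j hj).prime
    · intro a ha
      rw [mem_image] at ha
      obtain ⟨j, hj, rfl⟩ := ha
      exact (hf j hj).2
  have h3 : z ^ ((N : ℝ) / 2) ≤ ∏ j ∈ range N, (f j : ℝ) := by
    have h4 : z ^ ((N : ℝ) / 2) = ∏ j ∈ range N, z ^ (1 / 2 : ℝ) := by
      rw [prod_const, card_range, ← Real.rpow_natCast, ← Real.rpow_mul (by linarith)]
      congr 1
      ring
    rw [h4]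
    apply prod_le_prod
    · intro j _; positivity
    · intro j hj
      have := (hf j hj).1
      unfold win at this
      rw [mem_filter, mem_Ico] at this
      refine le_trans ?_ (Nat.ceil_le.1 this.1.1)
      exact Real.rpow_le_rpow_of_exponent_le hz (th_half N j)
  have h4 : ((∏ j ∈ range N, f j : ℕ) : ℝ) ≤ F s := by
    exact_mod_cast Nat.le_of_dvd hs0 h2
  push_cast at h4
  linarith

/-- inclusion and exclusion -/
theorem incl_excl (z : ℝ) (hz : 1 ≤ z) (N : ℕ) (S : Finset ℕ) (hS0 : ∀ s ∈ S, 0 < F s)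
    (hS : ∀ s ∈ S, (F s : ℝ) < z ^ ((N : ℝ) / 2)) :
    ∑ J ∈ (range N).powerset, (-1 : ℝ) ^ J.card *
      ((S.filter (fun s => Nat.Coprime (F s) (PJ z N J))).card : ℝ) = 0 := by
  classical
  have h1 : ∀ J : Finset ℕ, ((S.filter (fun s => Nat.Coprime (F s) (PJ z N J))).card : ℝ) =
      ∑ s ∈ S, ∏ j ∈ J, ch F z N s j := by
    intro J
    rw [card_filter]
    push_cast
    apply sum_congr rfl
    intro s _
    rw [prod_ch]
  have h2 : ∀ s ∈ S, ∑ J ∈ (range N).powerset, (-1 : ℝ) ^ J.card * ∏ j ∈ J, ch F z N s j = 0 := by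
    intro s hs
    have h3 := ch_prod_zero z hz N s (hS0 s hs) (hS s hs)
    rw [← h3]
    have h4 : ∀ j ∈ range N, 1 - ch F z N s j = (-ch F z N s j) + 1 := fun j _ => by ring
    rw [prod_congr rfl h4, prod_add]
    apply sum_congr rfl
    intro J _
    rw [prod_const_one, mul_one, prod_neg]
  calc ∑ J ∈ (range N).powerset, (-1 : ℝ) ^ J.card *
      ((S.filter (fun s => Nat.Coprime (F s) (PJ z N J))).card : ℝ)
      = ∑ s ∈ S, ∑ J ∈ (range N).powerset, (-1 : ℝ) ^ J.card * ∏ j ∈ J, ch F z N s j := by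
        simp_rw [h1, mul_sum]
        rw [sum_comm]
    _ = 0 := by
        apply sum_eq_zero
        intro s hs
        rw [h2 s hs]

theorem incl_excl_main (z : ℝ) (N : ℕ) (hN : 1 ≤ N)
    (hwin : ∀ j < N, ∏ p ∈ win z N j, lf F p ≤ 1 - 1 / (4 * N)) :
    (1 / (4 * N : ℝ)) ^ N ≤ ∑ J ∈ (range N).powerset, (-1 : ℝ) ^ J.card *
      ∏ j ∈ J, ∏ p ∈ win z N j, lf F p := by
  have h1 : ∏ j ∈ range N, (1 - ∏ p ∈ win z N j, lf F p) =
      ∑ J ∈ (range N).powerset, (-1 : ℝ) ^ J.card * ∏ j ∈ J, ∏ p ∈ win z N j, lf F p := by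
    have h4 : ∀ j ∈ range N, 1 - ∏ p ∈ win z N j, lf F p = (-∏ p ∈ win z N j, lf F p) + 1 :=
      fun j _ => by ring
    rw [prod_congr rfl h4, prod_add]
    apply sum_congr rfl
    intro J _
    rw [prod_const_one, mul_one, prod_neg]
  rw [← h1]
  have hNr : (1 : ℝ) ≤ N := by exact_mod_cast hN
  calc (1 / (4 * N : ℝ)) ^ N = ∏ j ∈ range N, (1 / (4 * N : ℝ)) := by rw [prod_const, card_range]
    _ ≤ _ := by
        apply prod_le_prod
        · intro j _; positivity
        · intro j hj
          have := hwin j (mem_range.1 hj)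
          linarith

end Pool.Agent.K4H14.MT
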