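import Pool.Agent.K4H14.MT.Basic

/-!
The matrix of short intervals.
-/

set_option autoImplicit false

namespace Pool.Agent.K4H14.MT

open Finset
open Pool.Agent.K4H14.FG (win UJ PJ th UJ_prime PJ_pos PJ_primeFactors PJ_dvd win_disj coprime_iff th_half)

open Classical in
/-- the number of `n` with `X < n ≤ Y`, `n ≡ a (mod q)` and `P n` -/
noncomputable def cnt (P : ℕ → Prop) (X Y q a : ℕ) : ℕ :=
  ((Ioc X Y).filter (fun n : ℕ => n ≡ a [MOD q] ∧ P n)).card

/-- the first entries of the rows -/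
def Rw (X d : ℕ) : Finset ℕ := Ioc (X / d) (2 * X / d)

theorem mem_Rw {X d r : ℕ} (hd : 1 ≤ d) : r ∈ Rw X d ↔ X < d * r ∧ d * r ≤ 2 * X := by
  unfold Rw
  rw [mem_Ioc, Nat.div_lt_iff_lt_mul hd, Nat.le_div_iff_mul_le hd, mul_comm r d]

theorem Rw_card (X d : ℕ) (hd : 1 ≤ d) : |((Rw X d).card : ℝ) - (X : ℝ) / d| ≤ 1 := by
  unfold Rw
  rw [Nat.card_Ioc]
  have hdr : (0 : ℝ) < d := by exact_mod_cast hd
  have h1 : X / d ≤ 2 * X / d := Nat.div_le_div_right (by omega)
  rw [Nat.cast_sub h1]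
  have h2 : ((X / d : ℕ) : ℝ) ≤ X / d := Nat.cast_div_le
  have h3 : ((2 * X / d : ℕ) : ℝ) ≤ (2 * X : ℕ) / d := Nat.cast_div_le
  have h4 : (X : ℝ) / d < (X / d : ℕ) + 1 := by
    rw [div_lt_iff₀ hdr]
    have := Nat.lt_div_mul_add (a := X) hd
    have h5 : X < (X / d + 1) * d := by
      calc X < X / d * d + d := this
        _ = (X / d + 1) * d := by ring
    exact_mod_cast h5
  have h6 : ((2 * X : ℕ) : ℝ) / d < (2 * X / d : ℕ) + 1 := by
    rw [div_lt_iff₀ hdr]
    have := Nat.lt_div_mul_add (a := 2 * X) hd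
    have h5 : 2 * X < (2 * X / d + 1) * d := by
      calc 2 * X < 2 * X / d * d + d := this
        _ = (2 * X / d + 1) * d := by ring
    exact_mod_cast h5
  have h7 : ((2 * X : ℕ) : ℝ) / d = 2 * (X / d) := by push_cast; ring
  rw [h7] at h3 h6
  rw [abs_le]
  constructor <;> linarith

open Classical in
theorem row_eq (P : ℕ → Prop) (y S : ℕ) :
    cnt P y (y + S) 1 0 = ((Icc 1 S).filter (fun s => P (y + s))).card := by
  unfold cnt
  refine card_nbij' (fun n => n - y) (fun s => y + s) ?_ ?_ ?_ ?_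
  · intro n hn
    simp only [coe_filter, mem_Ioc, Set.mem_setOf_eq, mem_Icc] at hn ⊢
    have e : y + (n - y) = n := by omega
    rw [e]
    exact ⟨⟨by omega, by omega⟩, hn.2.2⟩
  · intro s hs
    simp only [coe_filter, mem_Ioc, Set.mem_setOf_eq, mem_Icc] at hs ⊢
    exact ⟨⟨by omega, by omega⟩, Nat.modEq_one, hs.2⟩
  · intro n hn
    simp only [coe_filter, mem_Ioc, Set.mem_setOf_eq] at hn
    change y + (n - y) = n
    omega
  · intro s hs
    change y + s - y = s
    omega

open Classical in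
theorem rows_cols (P : ℕ → Prop) (X S d : ℕ) :
    ∑ r ∈ Rw X d, cnt P (d * r) (d * r + S) 1 0 =
      ∑ s ∈ Icc 1 S, ((Rw X d).filter (fun r => P (d * r + s))).card := by
  simp_rw [row_eq, card_filter]
  rw [sum_comm]

open Classical in
theorem col_near (P : ℕ → Prop) (X d s : ℕ) (hd : 1 ≤ d) :
    |((((Rw X d).filter (fun r => P (d * r + s))).card : ℕ) : ℝ) - cnt P X (2 * X) d s| ≤ s := by
  have hA : ((Rw X d).filter (fun r => P (d * r + s))).card ≤ cnt P X (2 * X) d s + s := by
    have h1 : ((Rw X d).filter (fun r => P (d * r + s))).image (fun r => d * r + s) ⊆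
        (Ioc X (2 * X)).filter (fun n : ℕ => n ≡ s [MOD d] ∧ P n) ∪ Ioc (2 * X) (2 * X + s) := by
      intro n hn
      rw [mem_image] at hn
      obtain ⟨r, hr, rfl⟩ := hn
      rw [mem_filter, mem_Rw hd] at hr
      rw [mem_union, mem_filter, mem_Ioc, mem_Ioc]
      rcases Nat.lt_or_ge (2 * X) (d * r + s) with h | h
      · right
        omega
      · left
        refine ⟨⟨by omega, h⟩, ?_, hr.2⟩
        have h5 : d * r ≡ 0 [MOD d] := (Nat.modEq_zero_iff_dvd).2 (dvd_mul_right d r)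
        simpa using h5.add_right s
    have h2 := card_le_card h1
    rw [card_image_of_injective _ (by
      intro a b hab
      have h3 : d * a = d * b := by
        have : d * a + s = d * b + s := hab
        omega
      exact Nat.eq_of_mul_eq_mul_left hd h3)] at h2
    refine h2.trans ((card_union_le _ _).trans ?_)
    rw [Nat.card_Ioc]
    unfold cnt
    omega
  have hB : cnt P X (2 * X) d s ≤ ((Rw X d).filter (fun r => P (d * r + s))).card + s := by
    have h1 : (Ioc X (2 * X)).filter (fun n : ℕ => n ≡ s [MOD d] ∧ P n) ⊆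
        ((Rw X d).filter (fun r => P (d * r + s))).image (fun r => d * r + s) ∪ Ioc X (X + s) := by
      intro n hn
      rw [mem_filter, mem_Ioc] at hn
      rw [mem_union, mem_image, mem_Ioc]
      rcases Nat.lt_or_ge (X + s) n with h | h
      · left
        have h3 : d ∣ n - s := (Nat.modEq_iff_dvd' (by omega)).1 hn.2.1.symm
        obtain ⟨r, hr⟩ := h3
        refine ⟨r, ?_, by omega⟩
        rw [mem_filter, mem_Rw hd]
        have e : d * r + s = n := by omega
        rw [e]
        exact ⟨⟨by omega, by omega⟩, hn.2.2⟩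
      · right
        omega
    have h2 := card_le_card h1
    unfold cnt
    refine h2.trans ((card_union_le _ _).trans ?_)
    rw [Nat.card_Ioc]
    have := card_image_le (s := (Rw X d).filter (fun r => P (d * r + s))) (f := fun r => d * r + s)
    omega
  have hA' : ((((Rw X d).filter (fun r => P (d * r + s))).card : ℕ) : ℝ) ≤ cnt P X (2 * X) d s + s := by
    exact_mod_cast hA
  have hB' : (cnt P X (2 * X) d s : ℝ) ≤ (((Rw X d).filter (fun r => P (d * r + s))).card : ℕ) + s := by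
    exact_mod_cast hB
  rw [abs_le]
  constructor <;> linarith

variable {F : ℕ → ℕ} {P : ℕ → Prop}

theorem col_zero (hS : Sys F P) (X d s : ℕ) (hd : 1 ≤ d) (hdX : d ≤ X) (hs : ¬ Nat.Coprime (F s) d) :
    cnt P X (2 * X) d s = 0 := by
  classical
  unfold cnt
  rw [card_eq_zero, filter_eq_empty_iff]
  rintro n hn ⟨h1, h2⟩
  rw [mem_Ioc] at hn
  exact hs ((cop_mod hS.per h1).1 (hS.cop n d hd (by omega) h2))

/-- one product of windows -/
theorem one_set (hS : Sys F P) (X S d : ℕ) (G δ : ℝ) (hδ0 : 0 < δ) (hδ1 : δ ≤ 1 / 2) (hG : 0 < G)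
    (hX : 1 ≤ X) (hd : 1 ≤ d) (hdX : d ≤ X) (hc : 0 < cls F d)
    (h1 : |(cnt P X (2 * X) 1 0 : ℝ) - G| ≤ δ * G)
    (hi : ∀ a, a ≤ S → Nat.Coprime (F a) d →
      |(cnt P X (2 * X) d a : ℝ) - G / cls F d| ≤ δ * (G / cls F d))
    (bad : Finset ℕ) (hbad : ∀ y ∈ Ioc X (2 * X), y ∉ bad →
      |(cnt P y (y + S) 1 0 : ℝ) - S * (G / X)| ≤ δ * (S * (G / X)))
    (hT : (S + 4 + 3 * (bad.card : ℝ)) * d ≤ δ * G) :
    |((((Icc 1 S).filter (fun s => Nat.Coprime (F s) d)).card : ℕ) : ℝ) - S * (cls F d / d : ℝ)| ≤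
      3 * δ * S := by
  classical
  have hdr : (1 : ℝ) ≤ d := by exact_mod_cast hd
  have hXr : (1 : ℝ) ≤ X := by exact_mod_cast hX
  have hcr : (0 : ℝ) < cls F d := by exact_mod_cast hc
  have hcd : (cls F d : ℝ) ≤ d := by exact_mod_cast cls_le F d
  have hSr : (0 : ℝ) ≤ S := Nat.cast_nonneg _
  -- the size of `G`
  have hGX : G ≤ 2 * X := by
    have h2 : (cnt P X (2 * X) 1 0 : ℝ) ≤ X := by
      have : cnt P X (2 * X) 1 0 ≤ X := by
        unfold cnt
        refine (card_filter_le _ _).trans ?_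
        rw [Nat.card_Ioc]
        omega
      exact_mod_cast this
    have h3 := (abs_le.1 h1).1
    nlinarith
  have hGX1 : G / X ≤ 2 := by
    rw [div_le_iff₀ (by linarith)]
    exact hGX
  have hGX0 : 0 ≤ G / X := by positivity
  set K : ℝ := ((((Icc 1 S).filter (fun s => Nat.Coprime (F s) d)).card : ℕ) : ℝ) with hK
  have hK0 : 0 ≤ K := Nat.cast_nonneg _
  have hKS : K ≤ S := by
    rw [hK]
    have : ((Icc 1 S).filter (fun s => Nat.Coprime (F s) d)).card ≤ S := by
      refine (card_filter_le _ _).trans ?_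
      simp
    exact_mod_cast this
  -- columns
  have hcol : |(∑ s ∈ Icc 1 S, (((Rw X d).filter (fun r => P (d * r + s))).card : ℝ)) -
      K * (G / cls F d)| ≤ δ * (K * (G / cls F d)) + S * S := by
    have e1 : K * (G / cls F d) = ∑ s ∈ Icc 1 S, (if Nat.Coprime (F s) d then G / cls F d else 0) := by
      rw [← sum_filter, sum_const, nsmul_eq_mul]
    have e2 : δ * (K * (G / cls F d)) = ∑ s ∈ Icc 1 S,
        (if Nat.Coprime (F s) d then δ * (G / cls F d) else 0) := by
      rw [← sum_filter, sum_const, nsmul_eq_mul]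
      ring
    have e3 : (S : ℝ) * S = ∑ s ∈ Icc 1 S, (S : ℝ) := by
      rw [sum_const, Nat.card_Icc, nsmul_eq_mul]
      simp
    rw [e2, e3, e1, ← sum_sub_distrib, ← sum_add_distrib]
    refine (abs_sum_le_sum_abs _ _).trans (sum_le_sum ?_)
    intro s hs
    rw [mem_Icc] at hs
    have h2 := col_near P X d s hd
    have hsS : (s : ℝ) ≤ S := by exact_mod_cast hs.2
    split_ifs with hcop
    · have h3 := hi s hs.2 hcop
      rw [abs_le] at h2 h3 ⊢
      constructor <;> linarith [h2.1, h2.2, h3.1, h3.2]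
    · rw [col_zero hS X d s hd hdX hcop] at h2
      rw [abs_le] at h2 ⊢
      constructor
      · linarith [h2.1]
      · have := h2.2
        push_cast at this ⊢
        linarith
  -- rows
  have hrow : |(∑ r ∈ Rw X d, (cnt P (d * r) (d * r + S) 1 0 : ℝ)) - (Rw X d).card * (S * (G / X))| ≤
      (Rw X d).card * (δ * (S * (G / X))) + bad.card * (3 * S) := by
    have e1 : ((Rw X d).card : ℝ) * (S * (G / X)) = ∑ r ∈ Rw X d, (S * (G / X) : ℝ) := by
      rw [sum_const, nsmul_eq_mul]
    have e2 : ((Rw X d).card : ℝ) * (δ * (S * (G / X))) = ∑ r ∈ Rw X d, (δ * (S * (G / X)) : ℝ) := by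
      rw [sum_const, nsmul_eq_mul]
    have e3 : (∑ r ∈ Rw X d, (if d * r ∈ bad then (3 * S : ℝ) else 0)) ≤ bad.card * (3 * S) := by
      rw [← sum_filter, sum_const, nsmul_eq_mul]
      apply mul_le_mul_of_nonneg_right _ (by positivity)
      have h4 : ((Rw X d).filter (fun r => d * r ∈ bad)).card ≤ bad.card := by
        apply card_le_card_of_injOn (fun r => d * r)
        · intro r hr
          simp only [coe_filter, Set.mem_setOf_eq] at hr
          exact hr.2
        · intro a _ b _ hab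
          exact Nat.eq_of_mul_eq_mul_left hd hab
      exact_mod_cast h4
    refine le_trans ?_ (add_le_add_right e3 _)
    rw [e1, e2, ← sum_sub_distrib, ← sum_add_distrib]
    refine (abs_sum_le_sum_abs _ _).trans (sum_le_sum ?_)
    intro r hr
    rw [mem_Rw hd] at hr
    by_cases hb : d * r ∈ bad
    · rw [if_pos hb]
      have h2 : (cnt P (d * r) (d * r + S) 1 0 : ℝ) ≤ S := by
        have : cnt P (d * r) (d * r + S) 1 0 ≤ S := by
          unfold cnt
          refine (card_filter_le _ _).trans ?_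
          rw [Nat.card_Ioc]
          omega
        exact_mod_cast this
      have h3 : (0 : ℝ) ≤ cnt P (d * r) (d * r + S) 1 0 := Nat.cast_nonneg _
      have h4 : (S : ℝ) * (G / X) ≤ S * 2 := mul_le_mul_of_nonneg_left hGX1 hSr
      have h5 : 0 ≤ (S : ℝ) * (G / X) := by positivity
      have h6 : 0 ≤ δ * ((S : ℝ) * (G / X)) := by positivity
      rw [abs_le]
      constructor <;> linarith
    · rw [if_neg hb, add_zero]
      exact hbad (d * r) (by rw [mem_Ioc]; exact hr) hb
  -- comparison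
  have heq : (∑ r ∈ Rw X d, (cnt P (d * r) (d * r + S) 1 0 : ℝ)) =
      ∑ s ∈ Icc 1 S, (((Rw X d).filter (fun r => P (d * r + s))).card : ℝ) := by
    exact_mod_cast rows_cols P X S d
  rw [heq] at hrow
  have hR := Rw_card X d hd
  have hR2 : |((Rw X d).card : ℝ) * (S * (G / X)) - S * G / d| ≤ 2 * S := by
    have e : ((Rw X d).card : ℝ) * (S * (G / X)) - S * G / d =
        (((Rw X d).card : ℝ) - X / d) * (S * (G / X)) := by
      field_simp
    rw [e, abs_mul, abs_of_nonneg (by positivity : (0 : ℝ) ≤ S * (G / X))]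
    calc _ ≤ 1 * (S * (G / X)) := mul_le_mul_of_nonneg_right hR (by positivity)
      _ ≤ 1 * (S * 2) := by
          apply mul_le_mul_of_nonneg_left _ (by norm_num)
          exact mul_le_mul_of_nonneg_left hGX1 hSr
      _ = 2 * S := by ring
  have hSG : 0 ≤ S * G / d := by positivity
  have hcomb : |K * (G / cls F d) - S * G / d| ≤ δ * (K * (G / cls F d)) + δ * (S * G / d) +
      S * (S + 4 + 3 * bad.card) := by
    have h5 : ((Rw X d).card : ℝ) * (δ * (S * (G / X))) ≤ δ * (S * G / d) + δ * (2 * S) := by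
      have := (abs_le.1 hR2).2
      calc ((Rw X d).card : ℝ) * (δ * (S * (G / X))) = δ * ((Rw X d).card * (S * (G / X))) := by ring
        _ ≤ δ * (S * G / d + 2 * S) := mul_le_mul_of_nonneg_left (by linarith) hδ0.le
        _ = _ := by ring
    have h6 : δ * (2 * S) ≤ 2 * S := by nlinarith
    rw [abs_le] at hcol hrow hR2 ⊢
    constructor <;> nlinarith [hcol.1, hcol.2, hrow.1, hrow.2, hR2.1, hR2.2]
  have hfin : |K - S * (cls F d / d : ℝ)| = (cls F d / G) * |K * (G / cls F d) - S * G / d| := by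
    have e : K - S * (cls F d / d : ℝ) = (cls F d / G) * (K * (G / cls F d) - S * G / d) := by
      field_simp
    rw [e, abs_mul, abs_of_pos (by positivity : (0 : ℝ) < cls F d / G)]
  rw [hfin]
  calc (cls F d / G : ℝ) * |K * (G / cls F d) - S * G / d|
      ≤ (cls F d / G) * (δ * (K * (G / cls F d)) + δ * (S * G / d) + S * (S + 4 + 3 * bad.card)) :=
        mul_le_mul_of_nonneg_left hcomb (by positivity)
    _ = δ * K + δ * (S * (cls F d / d)) + S * ((S + 4 + 3 * bad.card) * cls F d / G) := by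
        field_simp
    _ ≤ δ * S + δ * (S * 1) + S * δ := by
        have h7 : (cls F d / d : ℝ) ≤ 1 := by
          rw [div_le_one (by linarith)]
          exact hcd
        have h8 : ((S : ℝ) + 4 + 3 * bad.card) * cls F d / G ≤ δ := by
          rw [div_le_iff₀ hG]
          refine le_trans ?_ hT
          exact mul_le_mul_of_nonneg_left hcd (by positivity)
        have h9 := mul_le_mul_of_nonneg_left h8 hSr
        have h10 := mul_le_mul_of_nonneg_left (mul_le_mul_of_nonneg_left h7 hSr) hδ0.le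
        have h11 := mul_le_mul_of_nonneg_left hKS hδ0.le
        linarith
    _ = 3 * δ * S := by ring

/-- the contradiction at one scale -/
theorem core (hS : Sys F P) (N : ℕ) (hN : 1 ≤ N) (z : ℝ) (hz : 1 ≤ z)
    (hlf : ∀ p ∈ UJ z N (range N), 0 < lf F p)
    (hwin : ∀ j < N, ∏ p ∈ win z N j, lf F p ≤ 1 - 1 / (4 * N)) (X S : ℕ) (G δ : ℝ) (hδ0 : 0 < δ)
    (hδ1 : δ ≤ 1 / 2) (hG : 0 < G) (hX : 1 ≤ X) (hS1 : 1 ≤ S) (hPX : PJ z N (range N) ≤ X)
    (hFS : ∀ s ∈ Icc 1 S, (F s : ℝ) < z ^ ((N : ℝ) / 2))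
    (hi : ∀ d, d ∣ PJ z N (range N) → ∀ a, a ≤ S → Nat.Coprime (F a) d →
      |(cnt P X (2 * X) d a : ℝ) - G / cls F d| ≤ δ * (G / cls F d))
    (bad : Finset ℕ) (hbad : ∀ y ∈ Ioc X (2 * X), y ∉ bad →
      |(cnt P y (y + S) 1 0 : ℝ) - S * (G / X)| ≤ δ * (S * (G / X)))
    (hT : (S + 4 + 3 * (bad.card : ℝ)) * PJ z N (range N) ≤ δ * G) :
    (1 / (4 * N : ℝ)) ^ N ≤ 2 ^ N * (3 * δ) := by
  classical
  have hSr : (1 : ℝ) ≤ S := by exact_mod_cast hS1
  have h1 : |(cnt P X (2 * X) 1 0 : ℝ) - G| ≤ δ * G := by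
    have := hi 1 (one_dvd _) 0 (Nat.zero_le _) (Nat.coprime_one_right _)
    rw [cls_one] at this
    simpa using this
  have key : ∀ J ∈ (range N).powerset,
      |((((Icc 1 S).filter (fun s => Nat.Coprime (F s) (PJ z N J))).card : ℕ) : ℝ) -
        S * ∏ j ∈ J, ∏ p ∈ win z N j, lf F p| ≤ 3 * δ * S := by
    intro J hJ
    rw [mem_powerset] at hJ
    have hdP : PJ z N J ∣ PJ z N (range N) := PJ_dvd z N hJ
    have hd1 : 0 < PJ z N J := PJ_pos z N J
    have hle := Nat.le_of_dvd (PJ_pos z N _) hdP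
    have hcls := cls_PJ hS.per z hz N J
    have hd1r : (0 : ℝ) < PJ z N J := by exact_mod_cast hd1
    have hprodpos : 0 < ∏ j ∈ J, ∏ p ∈ win z N j, lf F p := by
      apply prod_pos
      intro j hj
      apply prod_pos
      intro p hp
      apply hlf
      unfold UJ
      rw [mem_biUnion]
      exact ⟨j, hJ hj, hp⟩
    have hc : 0 < cls F (PJ z N J) := by
      have : (0 : ℝ) < cls F (PJ z N J) := by
        rw [hcls]
        positivity
      exact_mod_cast this
    have h2 := one_set hS X S (PJ z N J) G δ hδ0 hδ1 hG hX hd1 (hle.trans hPX) hc h1 (hi _ hdP) bad hbad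
      (by
        refine le_trans ?_ hT
        apply mul_le_mul_of_nonneg_left _ (by positivity)
        exact_mod_cast hle)
    have e : (cls F (PJ z N J) / PJ z N J : ℝ) = ∏ j ∈ J, ∏ p ∈ win z N j, lf F p := by
      rw [hcls]
      field_simp
    rw [e] at h2
    exact h2
  have hz0 := incl_excl (F := F) z hz N (Icc 1 S) (fun s hs => hS.pos s (mem_Icc.1 hs).1) hFS
  have hmain := incl_excl_main (F := F) z N hN hwin
  have h2 : |∑ J ∈ (range N).powerset, (-1 : ℝ) ^ J.card *
      (((((Icc 1 S).filter (fun s => Nat.Coprime (F s) (PJ z N J))).card : ℕ) : ℝ) -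
        S * ∏ j ∈ J, ∏ p ∈ win z N j, lf F p)| ≤ 2 ^ N * (3 * δ * S) := by
    refine (abs_sum_le_sum_abs _ _).trans ?_
    have h3 : ∀ J ∈ (range N).powerset, |(-1 : ℝ) ^ J.card *
      (((((Icc 1 S).filter (fun s => Nat.Coprime (F s) (PJ z N J))).card : ℕ) : ℝ) -
        S * ∏ j ∈ J, ∏ p ∈ win z N j, lf F p)| ≤ 3 * δ * S := by
      intro J hJ
      rw [abs_mul, abs_pow, abs_neg, abs_one, one_pow, one_mul]
      exact key J hJ
    refine (sum_le_card_nsmul _ _ _ h3).trans ?_
    rw [card_powerset, card_range, nsmul_eq_mul]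
    push_cast
    exact le_refl _
  simp_rw [mul_sub] at h2
  rw [sum_sub_distrib, hz0, zero_sub, abs_neg] at h2
  have h4 : ∑ J ∈ (range N).powerset, (-1 : ℝ) ^ J.card *
      (S * ∏ j ∈ J, ∏ p ∈ win z N j, lf F p) =
      S * (∑ J ∈ (range N).powerset, (-1 : ℝ) ^ J.card *
      ∏ j ∈ J, ∏ p ∈ win z N j, lf F p) := by
    rw [mul_sum]
    apply sum_congr rfl
    intro J _
    ring
  rw [h4] at h2
  have h5 := (le_abs_self _).trans h2
  have h6 : S * (1 / (4 * N : ℝ)) ^ N ≤ S * (2 ^ N * (3 * δ)) := by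
    calc _ ≤ S * (∑ J ∈ (range N).powerset, (-1 : ℝ) ^ J.card *
      ∏ j ∈ J, ∏ p ∈ win z N j, lf F p) := mul_le_mul_of_nonneg_left hmain (by linarith)
      _ ≤ _ := h5
      _ = _ := by ring
  exact le_of_mul_le_mul_left h6 (by linarith)

end Pool.Agent.K4H14.MT
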