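import Pool.Agent.K4H14.MT.Core

/-!
Choice of the scales.
-/

set_option autoImplicit false

namespace Pool.Agent.K4H14.MT

open Finset Filter
open Pool.Agent.K4H14.FG (win UJ PJ th UJ_prime PJ_pos PJ_primeFactors PJ_dvd PJ_le th_half th_mono th_top)

/-- the constant -/
noncomputable def dl (N : ℕ) : ℝ := 1 / (4 * (8 * N) ^ N)

theorem dl_pos (N : ℕ) (hN : 1 ≤ N) : 0 < dl N := by
  unfold dl
  have : (1 : ℝ) ≤ N := by exact_mod_cast hN
  positivity

theorem dl_le (N : ℕ) (hN : 1 ≤ N) : dl N ≤ 1 / 2 := by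
  unfold dl
  have h1 : (1 : ℝ) ≤ N := by exact_mod_cast hN
  have h2 : (1 : ℝ) ≤ (8 * N) ^ N := one_le_pow₀ (by linarith)
  rw [div_le_div_iff₀ (by positivity) (by norm_num)]
  linarith

theorem dl_small (N : ℕ) (hN : 1 ≤ N) : (2 : ℝ) ^ N * (3 * dl N) < (1 / (4 * N : ℝ)) ^ N := by
  unfold dl
  have h1 : (1 : ℝ) ≤ N := by exact_mod_cast hN
  have e1 : (8 * (N : ℝ)) ^ N = 2 ^ N * (4 * N) ^ N := by
    rw [← mul_pow]
    congr 1
    ring
  rw [e1, div_pow, one_pow]
  have h2 : (0 : ℝ) < (4 * N) ^ N := by positivity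
  have e2 : (2 : ℝ) ^ N * (3 * (1 / (4 * (2 ^ N * (4 * N) ^ N)))) = (3 / 4) * (1 / (4 * N) ^ N) := by
    field_simp
  rw [e2]
  have h3 : (0 : ℝ) < 1 / (4 * N) ^ N := by positivity
  linarith

theorem mem_UJ_bounds (z : ℝ) (hz : 1 ≤ z) (N : ℕ) (hN : 1 ≤ N) (p : ℕ) (hp : p ∈ UJ z N (range N)) :
    z ^ (1 / 2 : ℝ) ≤ p ∧ (p : ℝ) < z := by
  unfold UJ win at hp
  simp only [mem_biUnion, mem_range, mem_filter, mem_Ico] at hp
  obtain ⟨j, hj, ⟨h1, h2⟩, _⟩ := hp
  constructor
  · refine le_trans ?_ (Nat.ceil_le.1 h1)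
    exact Real.rpow_le_rpow_of_exponent_le hz (th_half N j)
  · refine (Nat.lt_ceil.1 h2).trans_le ?_
    calc z ^ th N (j + 1) ≤ z ^ (1 : ℝ) := by
          apply Real.rpow_le_rpow_of_exponent_le hz
          rw [← th_top N hN]
          exact th_mono N hj
      _ = z := Real.rpow_one z

/-- growth -/
theorem growth (C : ℝ) (B : ℕ) (ε : ℝ) (hε : 0 < ε) : ∀ᶠ L : ℝ in atTop,
    C + 2 * B * Real.log L + Real.log 4 * L ^ (3 / 4 * ε) ≤ L ^ ε := by
  have h1 : (fun _ : ℝ => C) =o[atTop] fun L : ℝ => L ^ ε :=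
    Asymptotics.isLittleO_const_left.2 (Or.inr (by
      have := tendsto_rpow_atTop hε
      exact tendsto_abs_atTop_atTop.comp this))
  have h2 : (fun L : ℝ => Real.log L) =o[atTop] fun L : ℝ => L ^ ε := isLittleO_log_rpow_atTop hε
  have h3 : (fun L : ℝ => L ^ (3 / 4 * ε)) =o[atTop] fun L : ℝ => L ^ ε := by
    rw [Asymptotics.isLittleO_iff_tendsto' (by
      filter_upwards [eventually_gt_atTop (0 : ℝ)] with L hL h0
      exact absurd h0 (Real.rpow_pos_of_pos hL ε).ne')]
    have h4 : Tendsto (fun L : ℝ => L ^ (-(1 / 4 * ε))) atTop (nhds 0) :=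
      tendsto_rpow_neg_atTop (by positivity)
    refine h4.congr' ?_
    filter_upwards [eventually_gt_atTop (0 : ℝ)] with L hL
    rw [← Real.rpow_sub hL]
    congr 1
    ring
  have h4 := (h1.add (h2.const_mul_left (2 * B))).add (h3.const_mul_left (Real.log 4))
  filter_upwards [h4.bound (show (0 : ℝ) < 1 by norm_num), eventually_ge_atTop (1 : ℝ)] with L h5 h6
  rw [one_mul, Real.norm_of_nonneg (by positivity : (0 : ℝ) ≤ L ^ ε)] at h5
  exact (le_abs_self _).trans h5

open Classical in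
/-- the dichotomy, for general systems -/
theorem main (N B : ℕ) (hN : 1 ≤ N) (ε : ℝ) (hε : 0 < ε) (hε1 : ε ≤ 1) :
    ∀ᶠ X : ℕ in atTop, ∀ (F : ℕ → ℕ) (P : ℕ → Prop), Sys F P →
      (∀ p ∈ UJ (Real.log X ^ (3 / 4 * ε)) N (range N), 0 < lf F p) →
      (∀ j < N, ∏ p ∈ win (Real.log X ^ (3 / 4 * ε)) N j, lf F p ≤ 1 - 1 / (4 * N)) →
      ∀ S : ℕ, 1 ≤ S → (S : ℝ) ≤ Real.log X ^ B →
      (∀ s ∈ Icc 1 S, (F s : ℝ) < (Real.log X ^ (3 / 4 * ε)) ^ ((N : ℝ) / 2)) →
      ∀ G : ℝ,
        (∃ q : ℕ, Squarefree q ∧ (∀ p : ℕ, p.Prime → p ∣ q → Real.log X ^ (3 / 8 * ε) ≤ p ∧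
            (p : ℝ) < Real.log X ^ ε) ∧ (q : ℝ) ≤ Real.exp (Real.log X ^ ε) ∧
          ∃ a : ℕ, (a : ℝ) ≤ Real.log X ^ B ∧ Nat.Coprime (F a) q ∧
            dl N * (G / cls F q) ≤ |(cnt P X (2 * X) q a : ℝ) - G / cls F q|) ∨
        X * Real.exp (-(Real.log X ^ ε)) ≤ (((Ioc X (2 * X)).filter (fun y : ℕ =>
          dl N * (S * (G / X)) ≤ |(cnt P y (y + S) 1 0 : ℝ) - S * (G / X)|)).card : ℝ) := by
  have hlog : Tendsto (fun X : ℕ => Real.log X) atTop atTop :=
    Real.tendsto_log_atTop.comp tendsto_natCast_atTop_atTop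
  filter_upwards [hlog.eventually (growth (Real.log (80 / dl N)) B ε hε),
    hlog.eventually (eventually_ge_atTop (1 : ℝ)), eventually_ge_atTop 1] with X hg hL1 hX1
  intro F P hS hlf hwin S hS1 hSB hFS G
  set L := Real.log X with hL
  set z := L ^ (3 / 4 * ε) with hzdef
  have hL0 : 0 < L := by linarith
  have hz1 : 1 ≤ z := Real.one_le_rpow hL1 (by positivity)
  have hd0 := dl_pos N hN
  have hXr : (1 : ℝ) ≤ X := by exact_mod_cast hX1
  have hX0 : (0 : ℝ) < X := by linarith
  have hSr : (1 : ℝ) ≤ S := by exact_mod_cast hS1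
  by_contra hcon
  rw [not_or] at hcon
  obtain ⟨hn1, hn2⟩ := hcon
  push Not at hn1
  rw [not_le] at hn2
  set bad := (Ioc X (2 * X)).filter (fun y : ℕ =>
          dl N * (S * (G / X)) ≤ |(cnt P y (y + S) 1 0 : ℝ) - S * (G / X)|) with hbaddef
  -- size of the modulus
  have hP1 := PJ_le z hz1 N hN
  have hL8 : Real.log (80 / dl N) + 2 * B * Real.log L + Real.log 4 * z ≤ L ^ ε := hg
  have hbig : 80 / dl N * (L ^ B) ^ 2 * (4 : ℝ) ^ z ≤ Real.exp (L ^ ε) := by
    have e1 : 80 / dl N * (L ^ B) ^ 2 * (4 : ℝ) ^ z =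
        Real.exp (Real.log (80 / dl N) + 2 * B * Real.log L + Real.log 4 * z) := by
      rw [Real.exp_add, Real.exp_add, Real.exp_log (by positivity), Real.rpow_def_of_pos (by norm_num)]
      congr 2
      rw [← pow_mul, ← Real.exp_log (show (0 : ℝ) < L ^ (B * 2) by positivity), Real.log_pow]
      congr 1
      push_cast
      ring
    rw [e1]
    exact Real.exp_le_exp.2 hL8
  have hLB : (1 : ℝ) ≤ L ^ B := one_le_pow₀ hL1
  have h4z : (1 : ℝ) ≤ (4 : ℝ) ^ z := Real.one_le_rpow (by norm_num) (by linarith)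
  have hexpX : Real.exp (L ^ ε) ≤ X := by
    calc Real.exp (L ^ ε) ≤ Real.exp L := by
          apply Real.exp_le_exp.2
          calc L ^ ε ≤ L ^ (1 : ℝ) := Real.rpow_le_rpow_of_exponent_le hL1 hε1
            _ = L := Real.rpow_one L
      _ = X := Real.exp_log hX0
  have hdl2 := dl_le N hN
  have h80 : (160 : ℝ) ≤ 80 / dl N := by
    rw [le_div_iff₀ hd0]
    linarith
  -- the inequality for the modulus
  have hPP : 20 / dl N * (L ^ B) ^ 2 * PJ z N (range N) ≤ Real.exp (L ^ ε) := by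
    refine le_trans ?_ hbig
    calc 20 / dl N * (L ^ B) ^ 2 * PJ z N (range N) ≤ 20 / dl N * (L ^ B) ^ 2 * (4 * (4 : ℝ) ^ z) :=
          mul_le_mul_of_nonneg_left hP1 (by positivity)
      _ = 80 / dl N * (L ^ B) ^ 2 * (4 : ℝ) ^ z := by ring
  have hPr : (1 : ℝ) ≤ PJ z N (range N) := by exact_mod_cast PJ_pos z N (range N)
  have h20 : (1 : ℝ) ≤ 20 / dl N := by
    rw [le_div_iff₀ hd0]
    linarith
  have hPexp : (PJ z N (range N) : ℝ) ≤ Real.exp (L ^ ε) := by
    refine le_trans ?_ hPP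
    calc (PJ z N (range N) : ℝ) = 1 * 1 * PJ z N (range N) := by ring
      _ ≤ 20 / dl N * (L ^ B) ^ 2 * PJ z N (range N) := by
          apply mul_le_mul_of_nonneg_right _ (by linarith)
          exact mul_le_mul h20 (one_le_pow₀ hLB) (by norm_num) (by positivity)
  -- moduli
  have hmod : ∀ q, q ∣ PJ z N (range N) → Squarefree q ∧ (∀ p : ℕ, p.Prime → p ∣ q → L ^ (3 / 8 * ε) ≤ p ∧
            (p : ℝ) < L ^ ε) ∧ (q : ℝ) ≤ Real.exp (L ^ ε) := by
    intro q hq
    refine ⟨?_, ?_, ?_⟩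
    · refine Squarefree.squarefree_of_dvd hq ?_
      unfold PJ
      refine Finset.squarefree_prod_of_pairwise_isCoprime (fun a ha b hb hab ↦ ?_) ?_
      · rw [Function.onFun]
        exact Nat.coprime_iff_isRelPrime.1
            ((Nat.coprime_primes (UJ_prime z N _ a ha) (UJ_prime z N _ b hb)).2 hab)
      · intro a ha
        exact (UJ_prime z N _ a ha).prime.squarefree
    · intro p hp hpq
      have h1 : p ∈ UJ z N (range N) := by
        rw [← PJ_primeFactors, Nat.mem_primeFactors]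
        exact ⟨hp, hpq.trans hq, (PJ_pos z N _).ne'⟩
      have h2 := mem_UJ_bounds z hz1 N hN p h1
      constructor
      · have e : L ^ (3 / 8 * ε) = z ^ (1 / 2 : ℝ) := by
          rw [hzdef, ← Real.rpow_mul hL0.le]
          congr 1
          ring
        rw [e]
        exact h2.1
      · refine h2.2.trans_le ?_
        exact Real.rpow_le_rpow_of_exponent_le hL1 (by linarith)
    · refine le_trans ?_ hPexp
      exact_mod_cast Nat.le_of_dvd (PJ_pos z N _) hq
  -- `G` is positive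
  have hG0 : 0 < G := by
    have h1 := hn1 1 (hmod 1 (one_dvd _)).1 (hmod 1 (one_dvd _)).2.1 (hmod 1 (one_dvd _)).2.2 0
      (by rw [Nat.cast_zero]; positivity) (Nat.coprime_one_right _)
    rw [cls_one] at h1
    simp only [Nat.cast_one, div_one] at h1
    have h2 := (abs_nonneg ((cnt P X (2 * X) 1 0 : ℝ) - G)).trans_lt h1
    by_contra h3
    nlinarith
  have hGX0 : 0 < G / X := by positivity
  -- `G` is large
  have hGlow : (X : ℝ) / (2 * S) ≤ G := by
    have h1 : (bad.card : ℝ) < (Ioc X (2 * X)).card := by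
      rw [Nat.card_Ioc]
      refine hn2.trans_le ?_
      have e : ((2 * X - X : ℕ) : ℝ) = X := by
        have : 2 * X - X = X := by omega
        rw [this]
      rw [e]
      have : Real.exp (-(L ^ ε)) ≤ 1 := by
        apply Real.exp_le_one_iff.2
        have : 0 ≤ L ^ ε := by positivity
        linarith
      nlinarith
    have h2 : ∃ y ∈ Ioc X (2 * X), y ∉ bad := by
      by_contra h3
      push Not at h3
      have h4 : (Ioc X (2 * X)) ⊆ bad := fun y hy => h3 y hy
      have h5 := card_le_card h4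
      have h6 : ((Ioc X (2 * X)).card : ℝ) ≤ bad.card := by exact_mod_cast h5
      linarith
    obtain ⟨y, hy, hyb⟩ := h2
    rw [hbaddef, mem_filter, not_and, not_le] at hyb
    have h3 := hyb hy
    have h4 : 0 < (S : ℝ) * (G / X) := by positivity
    have h5 : cnt P y (y + S) 1 0 ≠ 0 := by
      intro h0
      rw [h0] at h3
      simp only [Nat.cast_zero, zero_sub, abs_neg] at h3
      rw [abs_of_pos h4] at h3
      nlinarith
    have h6 : (1 : ℝ) ≤ cnt P y (y + S) 1 0 := by exact_mod_cast Nat.one_le_iff_ne_zero.2 h5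
    have h7 := (abs_lt.1 h3).2
    have h8 : (1 : ℝ) ≤ 2 * (S * (G / X)) := by nlinarith
    rw [div_le_iff₀ (by positivity)]
    have h9 : (X : ℝ) * 1 ≤ X * (2 * (S * (G / X))) := mul_le_mul_of_nonneg_left h8 hX0.le
    have e : (X : ℝ) * (2 * (S * (G / X))) = G * (2 * S) := by field_simp
    linarith
  have hPX : PJ z N (range N) ≤ X := by
    have : (PJ z N (range N) : ℝ) ≤ X := hPexp.trans hexpX
    exact_mod_cast this
  -- the contradiction
  have hT : (S + 4 + 3 * (bad.card : ℝ)) * PJ z N (range N) ≤ dl N * G := by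
    have hS2 : (S : ℝ) * S ≤ (L ^ B) ^ 2 := by
      rw [sq]
      exact mul_le_mul hSB hSB (by linarith) (by linarith)
    have hSS : (S : ℝ) ≤ S * S := by nlinarith
    have hA : (20 * (S * S)) * PJ z N (range N) ≤ dl N * Real.exp (L ^ ε) := by
      have h1 : 20 / dl N * (S * S) * PJ z N (range N) ≤ Real.exp (L ^ ε) := by
        refine le_trans ?_ hPP
        apply mul_le_mul_of_nonneg_right _ (by linarith)
        exact mul_le_mul_of_nonneg_left hS2 (by positivity)
      have h2 := mul_le_mul_of_nonneg_left h1 hd0.le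
      calc (20 * (S * S)) * PJ z N (range N) = dl N * (20 / dl N * (S * S) * PJ z N (range N)) := by
            field_simp
        _ ≤ _ := h2
    have h1 : dl N * ((X : ℝ) / (2 * S)) ≤ dl N * G := mul_le_mul_of_nonneg_left hGlow hd0.le
    refine le_trans ?_ h1
    rw [mul_div_assoc', le_div_iff₀ (by positivity)]
    -- first part
    have h2 : ((S : ℝ) + 4) * PJ z N (range N) * (2 * S) ≤ dl N * X / 2 := by
      have h3 : ((S : ℝ) + 4) * (2 * S) ≤ 10 * (S * S) := by nlinarith
      calc ((S : ℝ) + 4) * PJ z N (range N) * (2 * S) = (((S : ℝ) + 4) * (2 * S)) * PJ z N (range N) := by ring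
        _ ≤ (10 * (S * S)) * PJ z N (range N) := mul_le_mul_of_nonneg_right h3 (by linarith)
        _ = ((20 * (S * S)) * PJ z N (range N)) / 2 := by ring
        _ ≤ (dl N * Real.exp (L ^ ε)) / 2 := div_le_div_of_nonneg_right hA (by norm_num)
        _ ≤ (dl N * X) / 2 := by
            apply div_le_div_of_nonneg_right _ (by norm_num)
            exact mul_le_mul_of_nonneg_left hexpX hd0.le
    have h3 : 3 * (bad.card : ℝ) * PJ z N (range N) * (2 * S) ≤ dl N * X / 2 := by
      have hE : 0 < Real.exp (L ^ ε) := Real.exp_pos _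
      have h4 : (bad.card : ℝ) * Real.exp (L ^ ε) ≤ X := by
        have h5 := mul_le_mul_of_nonneg_right hn2.le hE.le
        have e : (X : ℝ) * Real.exp (-(L ^ ε)) * Real.exp (L ^ ε) = X := by
          rw [mul_assoc, ← Real.exp_add]
          simp
        rw [e] at h5
        exact h5
      have h6 : 12 * (S : ℝ) * PJ z N (range N) ≤ dl N * Real.exp (L ^ ε) := by
        refine le_trans ?_ hA
        apply mul_le_mul_of_nonneg_right _ (by linarith)
        nlinarith
      calc 3 * (bad.card : ℝ) * PJ z N (range N) * (2 * S) =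
            bad.card * (12 * (S : ℝ) * PJ z N (range N)) / 2 := by ring
        _ ≤ bad.card * (dl N * Real.exp (L ^ ε)) / 2 := by
            apply div_le_div_of_nonneg_right _ (by norm_num)
            exact mul_le_mul_of_nonneg_left h6 (Nat.cast_nonneg _)
        _ = dl N * (bad.card * Real.exp (L ^ ε)) / 2 := by ring
        _ ≤ dl N * X / 2 := by
            apply div_le_div_of_nonneg_right _ (by norm_num)
            exact mul_le_mul_of_nonneg_left h4 hd0.le
    calc ((S : ℝ) + 4 + 3 * (bad.card : ℝ)) * PJ z N (range N) * (2 * S) =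
          ((S : ℝ) + 4) * PJ z N (range N) * (2 * S) +
          3 * (bad.card : ℝ) * PJ z N (range N) * (2 * S) := by ring
      _ ≤ dl N * X := by linarith
  have hcore := core hS N hN z hz1 hlf hwin X S G (dl N) hd0 hdl2 hG0 hX1 hS1 hPX hFS
    (by
      intro d hd a haS ha
      have h1 := hmod d hd
      exact (hn1 d h1.1 h1.2.1 h1.2.2 a ((by exact_mod_cast haS : (a : ℝ) ≤ S).trans hSB) ha).le)
    bad (by
      intro y hy hyb
      rw [hbaddef, mem_filter, not_and, not_le] at hyb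
      exact (hyb hy).le) hT
  exact absurd (dl_small N hN) (not_lt.2 hcore)

end Pool.Agent.K4H14.MT
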