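import Pool.Agent.K4H14.MT.Main

/-!
The system of the primes `n ^ 2 + 1`.
-/

set_option autoImplicit false

namespace Pool.Agent.K4H14.MT

open Finset Filter
open Pool.Agent.K4H14.FG (win UJ PJ th UJ_prime lf_pos win_small)

theorem sys_quad : Sys (fun n => n ^ 2 + 1) (fun n => (n ^ 2 + 1).Prime) where
  per := by
    intro m n
    have h5 : n + m ≡ n [MOD m] := by simp [Nat.ModEq]
    exact (h5.pow 2).add_right 1
  cop := by
    intro n q hq hqn hp
    rw [Nat.Prime.coprime_iff_not_dvd hp]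
    intro h
    have h1 := Nat.le_of_dvd (by omega) h
    nlinarith
  pos := fun n _ => Nat.succ_pos _

theorem lf_quad (p : ℕ) : lf (fun n => n ^ 2 + 1) p = Pool.Agent.K4H14.FG.lf p := rfl

open Classical in
theorem quad (B : ℕ) (hB : 1 ≤ B) (ε : ℝ) (hε : 0 < ε) (hε1 : ε ≤ 1) :
    ∀ᶠ X : ℕ in atTop, ∀ G : ℝ,
      (∃ q : ℕ, Squarefree q ∧ (∀ p : ℕ, p.Prime → p ∣ q → Real.log X ^ (3 / 8 * ε) ≤ p ∧
          (p : ℝ) < Real.log X ^ ε) ∧ (q : ℝ) ≤ Real.exp (Real.log X ^ ε) ∧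
        ∃ a : ℕ, (a : ℝ) ≤ Real.log X ^ B ∧ Nat.Coprime (a ^ 2 + 1) q ∧
          dl ⌈6 * B / ε⌉₊ * (G / cls (fun n => n ^ 2 + 1) q) ≤
            |(cnt (fun n => (n ^ 2 + 1).Prime) X (2 * X) q a : ℝ) - G / cls (fun n => n ^ 2 + 1) q|) ∨
      ∀ S : ℕ, 1 ≤ S → (S : ℝ) ≤ Real.log X ^ B →
        X * Real.exp (-(Real.log X ^ ε)) ≤ (((Ioc X (2 * X)).filter (fun y : ℕ =>
          dl ⌈6 * B / ε⌉₊ * (S * (G / X)) ≤
            |(cnt (fun n => (n ^ 2 + 1).Prime) y (y + S) 1 0 : ℝ) - S * (G / X)|)).card : ℝ) := by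
  set N := ⌈6 * B / ε⌉₊ with hN
  have hBr : (1 : ℝ) ≤ B := by exact_mod_cast hB
  have hN1 : 1 ≤ N := Nat.one_le_iff_ne_zero.2 (by
    have : 0 < N := Nat.ceil_pos.2 (by positivity)
    omega)
  have hNle : 6 * B / ε ≤ (N : ℝ) := Nat.le_ceil _
  have hlog : Tendsto (fun X : ℕ => Real.log X) atTop atTop :=
    Real.tendsto_log_atTop.comp tendsto_natCast_atTop_atTop
  have hz : Tendsto (fun X : ℕ => Real.log X ^ (3 / 4 * ε)) atTop atTop :=
    (tendsto_rpow_atTop (by positivity)).comp hlog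
  have hw : ∀ᶠ z : ℝ in atTop, ∀ j < N, ∏ p ∈ win z N j, Pool.Agent.K4H14.FG.lf p ≤ 1 - 1 / (4 * N) := by
    have h := (eventually_all_finset (range N) (l := atTop)
      (p := fun j (z : ℝ) => ∏ p ∈ win z N j, Pool.Agent.K4H14.FG.lf p ≤ 1 - 1 / (4 * N))).2
      (fun j hj => win_small N hN1 j (mem_range.1 hj))
    filter_upwards [h] with z hz j hj
    exact hz j (mem_range.2 hj)
  filter_upwards [main N B hN1 ε hε hε1, hz.eventually hw,
    hlog.eventually (eventually_gt_atTop (16 : ℝ))] with X hmain hwX hL G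
  by_cases hc : (∃ q : ℕ, Squarefree q ∧ (∀ p : ℕ, p.Prime → p ∣ q → Real.log X ^ (3 / 8 * ε) ≤ p ∧
          (p : ℝ) < Real.log X ^ ε) ∧ (q : ℝ) ≤ Real.exp (Real.log X ^ ε) ∧
        ∃ a : ℕ, (a : ℝ) ≤ Real.log X ^ B ∧ Nat.Coprime (a ^ 2 + 1) q ∧
          dl N * (G / cls (fun n => n ^ 2 + 1) q) ≤
            |(cnt (fun n => (n ^ 2 + 1).Prime) X (2 * X) q a : ℝ) - G / cls (fun n => n ^ 2 + 1) q|)
  · exact Or.inl hc
  · right
    intro S hS1 hSB
    have hlf : ∀ p ∈ UJ (Real.log X ^ (3 / 4 * ε)) N (range N), 0 < lf (fun n => n ^ 2 + 1) p := by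
      intro p hp
      rw [lf_quad]
      exact lf_pos p (UJ_prime _ _ _ p hp)
    have hw' : ∀ j < N, ∏ p ∈ win (Real.log X ^ (3 / 4 * ε)) N j, lf (fun n => n ^ 2 + 1) p ≤
        1 - 1 / (4 * N) := by
      intro j hj
      simp only [lf_quad]
      exact hwX j hj
    have hFS : ∀ s ∈ Icc 1 S, (((fun n => n ^ 2 + 1 : ℕ → ℕ) s : ℕ) : ℝ) <
        (Real.log X ^ (3 / 4 * ε)) ^ ((N : ℝ) / 2) := by
      intro s hs
      change ((s ^ 2 + 1 : ℕ) : ℝ) < _
      rw [mem_Icc] at hs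
      set L := Real.log X with hLdef
      have hL0 : 0 < L := by linarith
      have hs1 : (1 : ℝ) ≤ s := by exact_mod_cast hs.1
      have hsS : (s : ℝ) ≤ L ^ B := (by exact_mod_cast hs.2 : (s : ℝ) ≤ S).trans hSB
      have h1 : ((s ^ 2 + 1 : ℕ) : ℝ) ≤ 2 * (L ^ B) ^ 2 := by
        push_cast
        have : (s : ℝ) ^ 2 ≤ (L ^ B) ^ 2 := pow_le_pow_left₀ (by linarith) hsS 2
        nlinarith
      refine h1.trans_lt ?_
      rw [← Real.rpow_mul hL0.le]
      have h2 : (L : ℝ) ^ ((2 * B : ℝ) + 1 / 4) ≤ L ^ (3 / 4 * ε * ((N : ℝ) / 2)) := by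
        apply Real.rpow_le_rpow_of_exponent_le (by linarith)
        rw [div_le_iff₀ hε] at hNle
        nlinarith
      refine lt_of_lt_of_le ?_ h2
      rw [Real.rpow_add hL0]
      have e : (L : ℝ) ^ (2 * B : ℝ) = (L ^ B) ^ 2 := by
        rw [← pow_mul, ← Real.rpow_natCast]
        congr 1
        push_cast
        ring
      rw [e, mul_comm]
      apply mul_lt_mul_of_pos_left _ (by positivity)
      have h3 : (16 : ℝ) ^ (1 / 4 : ℝ) = 2 := by
        rw [show (16 : ℝ) = 2 ^ (4 : ℝ) by norm_num, ← Real.rpow_mul (by norm_num)]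
        norm_num
      rw [← h3]
      exact Real.rpow_lt_rpow (by norm_num) hL (by norm_num)
    rcases hmain (fun n => n ^ 2 + 1) (fun n => (n ^ 2 + 1).Prime) sys_quad hlf hw' S hS1 hSB hFS G
      with h | h
    · exact absurd h hc
    · exact h

end Pool.Agent.K4H14.MT
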