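import Pool.Agent.K4H14.MT.Main
import Pool.Agent.H305R2.MertensE

/-!
The systems of prime tuples.
-/

set_option autoImplicit false

namespace Pool.Agent.K4H14.MT

open Finset Filter Topology
open Pool.Agent.K4H14.FG (win UJ PJ th UJ_prime th_half th_mono th_top)

/-- the product over the primes less than `z` -/
noncomputable def gp (z : ℝ) : ℝ := ∏ p ∈ (range ⌈z⌉₊).filter Nat.Prime, (1 - (p : ℝ)⁻¹)

theorem fac_pos {p : ℕ} (hp : p.Prime) : 0 < 1 - (p : ℝ)⁻¹ := by
  have h2 : (2 : ℝ) ≤ p := by exact_mod_cast hp.two_le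
  have : (p : ℝ)⁻¹ ≤ 2⁻¹ := inv_anti₀ (by norm_num) h2
  linarith

theorem gp_pos (z : ℝ) : 0 < gp z := prod_pos fun _ hp => fac_pos (mem_filter.1 hp).2

theorem gp_lim : Tendsto (fun z : ℝ => gp z * Real.log z) atTop
    (𝓝 (Real.exp Real.eulerMascheroniConstant)⁻¹) := by
  have hM : Tendsto (fun z : ℝ => ⌈z⌉₊ - 1) atTop atTop := by
    have h1 : Tendsto (fun n : ℕ => n - 1) atTop atTop := tendsto_sub_atTop_nat 1
    exact h1.comp tendsto_nat_ceil_atTop
  have h1 := (Pool.Agent.H305R2.mertens_three.comp hM).inv₀ (Real.exp_pos _).ne'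
  have h2 : Tendsto (fun z : ℝ => Real.log z / Real.log ((⌈z⌉₊ - 1 : ℕ) : ℝ)) atTop (𝓝 1) := by
    have h3 : Tendsto (fun z : ℝ => Real.log ((⌈z⌉₊ - 1 : ℕ) : ℝ)) atTop atTop :=
      (Real.tendsto_log_atTop.comp tendsto_natCast_atTop_atTop).comp hM
    have h4 : Tendsto (fun z : ℝ => 1 + Real.log 2 / Real.log ((⌈z⌉₊ - 1 : ℕ) : ℝ)) atTop (𝓝 1) := by
      have := (h3.const_div_atTop (Real.log 2)).const_add 1
      simpa using this
    refine tendsto_of_tendsto_of_tendsto_of_le_of_le' tendsto_const_nhds h4 ?_ ?_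
    · filter_upwards [h3.eventually_gt_atTop 0, eventually_ge_atTop (2 : ℝ)] with z hz hz2
      rw [le_div_iff₀ hz, one_mul]
      have h5 : ((⌈z⌉₊ - 1 : ℕ) : ℝ) ≤ z := by
        have h6 := Nat.ceil_lt_add_one (show 0 ≤ z by linarith)
        have h7 : 1 ≤ ⌈z⌉₊ := Nat.one_le_ceil_iff.2 (by linarith)
        rw [Nat.cast_sub h7]
        push_cast
        linarith
      apply Real.log_le_log _ h5
      by_contra h8
      push Not at h8
      have h9 : Real.log ((⌈z⌉₊ - 1 : ℕ) : ℝ) = 0 := by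
        have : ((⌈z⌉₊ - 1 : ℕ) : ℝ) = 0 := le_antisymm h8 (Nat.cast_nonneg _)
        rw [this, Real.log_zero]
      linarith
    · filter_upwards [h3.eventually_gt_atTop 0, eventually_ge_atTop (2 : ℝ)] with z hz hz2
      rw [div_le_iff₀ hz, add_mul, one_mul, div_mul_cancel₀ _ hz.ne']
      have h5 : z / 2 ≤ ((⌈z⌉₊ - 1 : ℕ) : ℝ) := by
        have h6 := Nat.le_ceil z
        have h7 : 1 ≤ ⌈z⌉₊ := Nat.one_le_ceil_iff.2 (by linarith)
        rw [Nat.cast_sub h7]
        push_cast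
        linarith
      have h8 := Real.log_le_log (by positivity) h5
      rw [Real.log_div (by linarith) (by norm_num)] at h8
      linarith
  have h5 := h1.mul h2
  rw [mul_one] at h5
  refine h5.congr' ?_
  have h3 : Tendsto (fun z : ℝ => Real.log ((⌈z⌉₊ - 1 : ℕ) : ℝ)) atTop atTop :=
    (Real.tendsto_log_atTop.comp tendsto_natCast_atTop_atTop).comp hM
  filter_upwards [h3.eventually_gt_atTop 0] with z hz
  simp only [Function.comp]
  have e : (Finset.Icc 1 (⌈z⌉₊ - 1)).filter Nat.Prime = (range ⌈z⌉₊).filter Nat.Prime := by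
    ext p
    simp only [mem_filter, mem_Icc, mem_range]
    constructor
    · rintro ⟨⟨h6, h7⟩, h8⟩
      exact ⟨by omega, h8⟩
    · rintro ⟨h6, h8⟩
      have := h8.pos
      exact ⟨⟨by omega, by omega⟩, h8⟩
  rw [e, inv_div, prod_inv_distrib]
  unfold gp
  field_simp

theorem win_gp (z : ℝ) (hz : 1 ≤ z) (N j : ℕ) :
    gp (z ^ th N (j + 1)) = gp (z ^ th N j) * ∏ p ∈ win z N j, (1 - (p : ℝ)⁻¹) := by
  unfold gp
  rw [win, ← prod_union]
  · congr 1
    ext p
    have h1 : ⌈z ^ th N j⌉₊ ≤ ⌈z ^ th N (j + 1)⌉₊ :=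
      Nat.ceil_mono (Real.rpow_le_rpow_of_exponent_le hz (th_mono N (Nat.le_succ j)))
    simp only [mem_union, mem_filter, mem_range, mem_Ico]
    constructor
    · rintro ⟨h2, h3⟩
      rcases Nat.lt_or_ge p ⌈z ^ th N j⌉₊ with h | h
      · exact Or.inl ⟨h, h3⟩
      · exact Or.inr ⟨⟨h, h2⟩, h3⟩
    · rintro (⟨h2, h3⟩ | ⟨h2, h3⟩)
      · exact ⟨by omega, h3⟩
      · exact ⟨h2.2, h3⟩
  · rw [disjoint_left]
    intro p h1 h2
    rw [mem_filter, mem_range] at h1
    rw [mem_filter, mem_Ico] at h2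
    omega

theorem win_one (N : ℕ) (hN : 1 ≤ N) (j : ℕ) (hj : j < N) :
    ∀ᶠ z : ℝ in atTop, ∏ p ∈ win z N j, (1 - (p : ℝ)⁻¹) ≤ 1 - 1 / (4 * N) := by
  set L := (Real.exp Real.eulerMascheroniConstant)⁻¹ with hL
  have hL0 : 0 < L := inv_pos.2 (Real.exp_pos _)
  have hNr : (1 : ℝ) ≤ N := by exact_mod_cast hN
  have hlim' : ∀ θ : ℝ, 0 < θ → Tendsto (fun z : ℝ => gp (z ^ θ) * Real.log z) atTop (𝓝 (L / θ)) := by
    intro θ hθ
    have h1 := (gp_lim.comp (tendsto_rpow_atTop hθ)).div_const θ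
    refine h1.congr' ?_
    filter_upwards [eventually_gt_atTop (1 : ℝ)] with z hz
    simp only [Function.comp]
    rw [Real.log_rpow (by linarith)]
    field_simp
  have h0 : ∀ i, 0 < th N i := fun i => lt_of_lt_of_le (by norm_num) (th_half N i)
  have h1 := (hlim' _ (h0 (j + 1))).div (hlim' _ (h0 j)) (div_pos hL0 (h0 j)).ne'
  have h2 : (L / th N (j + 1)) / (L / th N j) < 1 - 1 / (4 * N) := by
    have h3 : (L / th N (j + 1)) / (L / th N j) = th N j / th N (j + 1) := by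
      have := h0 j
      have := h0 (j + 1)
      field_simp
    rw [h3, div_lt_iff₀ (h0 _)]
    have h4 : th N (j + 1) = th N j + 1 / (2 * N) := by
      unfold th
      push_cast
      ring
    have h5 : th N (j + 1) ≤ 1 := by
      rw [← th_top N hN]
      exact th_mono N hj
    have h6 : (0 : ℝ) < 1 / (4 * N) := by positivity
    have h7 : (1 : ℝ) / (2 * N) = 2 * (1 / (4 * N)) := by field_simp; norm_num
    have h8 := mul_nonneg h6.le (sub_nonneg.2 h5)
    rw [h4, h7] at h8 ⊢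
    nlinarith
  filter_upwards [h1.eventually_lt_const h2, eventually_gt_atTop (1 : ℝ)] with z hz hz1
  have hlog : 0 < Real.log z := Real.log_pos hz1
  have hd := gp_pos (z ^ th N j)
  simp only [Pi.div_apply] at hz
  rw [mul_div_mul_right _ _ hlog.ne', win_gp z hz1.le N j, mul_div_cancel_left₀ _ hd.ne'] at hz
  exact hz.le

/-- the product of the numbers `n + h` -/
def Ft (H : Finset ℕ) (n : ℕ) : ℕ := ∏ h ∈ H, (n + h)

/-- all the numbers `n + h` are primes -/
def Pt (H : Finset ℕ) (n : ℕ) : Prop := ∀ h ∈ H, (n + h).Prime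

theorem sys_tuple (H : Finset ℕ) : Sys (Ft H) (Pt H) where
  per := by
    classical
    intro m n
    unfold Ft
    induction H using Finset.induction_on with
    | empty => simp; exact Nat.ModEq.refl _
    | insert h H hh ih =>
      rw [prod_insert hh, prod_insert hh]
      apply Nat.ModEq.mul _ ih
      have e : n + m + h = n + h + m := by ring
      rw [e]
      simp [Nat.ModEq]
  cop := by
    intro n q hq hqn hP
    unfold Ft
    apply Nat.Coprime.prod_left
    intro h hh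
    have hp := hP h hh
    rw [Nat.Prime.coprime_iff_not_dvd hp]
    intro hd
    have := Nat.le_of_dvd (by omega) hd
    omega
  pos := by
    intro n hn
    unfold Ft
    exact prod_pos fun h _ => by omega

/-- the number of the roots -/
theorem roots_le (H : Finset ℕ) (p : ℕ) (hp : p.Prime) :
    ((range p).filter (fun b => p ∣ Ft H b)).card ≤ H.card := by
  classical
  have h1 : (range p).filter (fun b => p ∣ Ft H b) ⊆ H.biUnion (fun h => (range p).filter (fun b => p ∣ b + h)) := by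
    intro b hb
    rw [mem_filter] at hb
    unfold Ft at hb
    rw [Prime.dvd_finset_prod_iff hp.prime] at hb
    obtain ⟨hb1, h, hh, hd⟩ := hb
    rw [mem_biUnion]
    exact ⟨h, hh, mem_filter.2 ⟨hb1, hd⟩⟩
  refine (card_le_card h1).trans (card_biUnion_le.trans ?_)
  have h2 : ∀ h ∈ H, ((range p).filter (fun b => p ∣ b + h)).card ≤ 1 := by
    intro h _
    rw [card_le_one]
    intro a ha b hb
    rw [mem_filter, mem_range] at ha hb
    have h3 : a + h ≡ b + h [MOD p] := ((Nat.modEq_zero_iff_dvd).2 ha.2).trans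
      ((Nat.modEq_zero_iff_dvd).2 hb.2).symm
    have h4 := Nat.ModEq.add_right_cancel' h h3
    exact Nat.ModEq.eq_of_lt_of_lt h4 ha.1 hb.1
  calc ∑ h ∈ H, ((range p).filter (fun b => p ∣ b + h)).card ≤ ∑ h ∈ H, 1 := sum_le_sum h2
    _ = H.card := by simp

theorem roots_ge (H : Finset ℕ) (hH : H.Nonempty) (p : ℕ) (hp : p.Prime) :
    1 ≤ ((range p).filter (fun b => p ∣ Ft H b)).card := by
  obtain ⟨h, hh⟩ := hH
  rw [Nat.one_le_iff_ne_zero, ← Nat.pos_iff_ne_zero, card_pos]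
  refine ⟨(p - h % p) % p, ?_⟩
  rw [mem_filter, mem_range]
  refine ⟨Nat.mod_lt _ hp.pos, ?_⟩
  unfold Ft
  refine dvd_trans ?_ (dvd_prod_of_mem _ hh)
  have h1 : (p - h % p) % p + h ≡ (p - h % p) + h % p [MOD p] :=
    (Nat.mod_modEq _ _).add (Nat.mod_modEq _ _).symm
  have h2 : (p - h % p) + h % p = p := Nat.sub_add_cancel (Nat.mod_lt _ hp.pos).le
  rw [h2] at h1
  exact (Nat.modEq_zero_iff_dvd).1 (h1.trans (by simp [Nat.ModEq]))

theorem lf_tuple_pos (H : Finset ℕ) (p : ℕ) (hp : p.Prime) (hpH : H.card < p) : 0 < lf (Ft H) p := by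
  unfold lf
  have h1 := roots_le H p hp
  have h2 : (((range p).filter (fun b => p ∣ Ft H b)).card : ℝ) < p := by
    exact_mod_cast h1.trans_lt hpH
  have hp0 : (0 : ℝ) < p := by exact_mod_cast hp.pos
  rw [sub_pos, div_lt_one hp0]
  exact h2

theorem lf_tuple_le (H : Finset ℕ) (hH : H.Nonempty) (p : ℕ) (hp : p.Prime) :
    lf (Ft H) p ≤ 1 - (p : ℝ)⁻¹ := by
  unfold lf
  have h1 : (1 : ℝ) ≤ ((range p).filter (fun b => p ∣ Ft H b)).card := by
    exact_mod_cast roots_ge H hH p hp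
  have hp0 : (0 : ℝ) < p := by exact_mod_cast hp.pos
  have h2 : (p : ℝ)⁻¹ ≤ (((range p).filter (fun b => p ∣ Ft H b)).card : ℝ) / p := by
    rw [inv_eq_one_div]
    exact div_le_div_of_nonneg_right h1 hp0.le
  linarith

open Classical in
theorem tuple (K A B : ℕ) (hK : 1 ≤ K) (hB : 1 ≤ B) (ε : ℝ) (hε : 0 < ε) (hε1 : ε ≤ 1) :
    ∀ᶠ X : ℕ in atTop, ∀ H : Finset ℕ, H.card = K → (∀ h ∈ H, (h : ℝ) ≤ Real.log X ^ A) → ∀ G : ℝ,
      (∃ q : ℕ, Squarefree q ∧ (∀ p : ℕ, p.Prime → p ∣ q → Real.log X ^ (3 / 8 * ε) ≤ p ∧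
          (p : ℝ) < Real.log X ^ ε) ∧ (q : ℝ) ≤ Real.exp (Real.log X ^ ε) ∧
        ∃ a : ℕ, (a : ℝ) ≤ Real.log X ^ B ∧ Nat.Coprime (Ft H a) q ∧
          dl ⌈3 * (K * max A B : ℕ) / ε⌉₊ * (G / cls (Ft H) q) ≤
            |(cnt (Pt H) X (2 * X) q a : ℝ) - G / cls (Ft H) q|) ∨
      ∀ S : ℕ, 1 ≤ S → (S : ℝ) ≤ Real.log X ^ B →
        X * Real.exp (-(Real.log X ^ ε)) ≤ (((Ioc X (2 * X)).filter (fun y : ℕ =>
          dl ⌈3 * (K * max A B : ℕ) / ε⌉₊ * (S * (G / X)) ≤
            |(cnt (Pt H) y (y + S) 1 0 : ℝ) - S * (G / X)|)).card : ℝ) := by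
  obtain ⟨M, hM⟩ : ∃ M, M = max A B := ⟨_, rfl⟩
  rw [← hM]
  have hM1 : 1 ≤ M := by rw [hM]; exact le_trans hB (le_max_right _ _)
  have hKM : (1 : ℝ) ≤ (K * M : ℕ) := by
    exact_mod_cast Nat.mul_pos hK hM1
  obtain ⟨N, hN⟩ : ∃ N, N = ⌈3 * (K * M : ℕ) / ε⌉₊ := ⟨_, rfl⟩
  rw [← hN]
  have hN1 : 1 ≤ N := by
    have : 0 < N := by
      rw [hN]
      exact Nat.ceil_pos.2 (by positivity)
    omega
  have hNle : 3 * (K * M : ℕ) / ε ≤ (N : ℝ) := by rw [hN]; exact Nat.le_ceil _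
  have hlog : Tendsto (fun X : ℕ => Real.log X) atTop atTop :=
    Real.tendsto_log_atTop.comp tendsto_natCast_atTop_atTop
  have hz : Tendsto (fun X : ℕ => Real.log X ^ (3 / 4 * ε)) atTop atTop :=
    (tendsto_rpow_atTop (by positivity)).comp hlog
  have hz2 : Tendsto (fun X : ℕ => (Real.log X ^ (3 / 4 * ε)) ^ (1 / 2 : ℝ)) atTop atTop :=
    (tendsto_rpow_atTop (by norm_num)).comp hz
  have hw : ∀ᶠ z : ℝ in atTop, ∀ j < N, ∏ p ∈ win z N j, (1 - (p : ℝ)⁻¹) ≤ 1 - 1 / (4 * N) := by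
    have h := (eventually_all_finset (range N) (l := atTop)
      (p := fun j (z : ℝ) => ∏ p ∈ win z N j, (1 - (p : ℝ)⁻¹) ≤ 1 - 1 / (4 * N))).2
      (fun j hj => win_one N hN1 j (mem_range.1 hj))
    filter_upwards [h] with z hz j hj
    exact hz j (mem_range.2 hj)
  filter_upwards [main N B hN1 ε hε hε1, hz.eventually hw, hz.eventually (eventually_ge_atTop (1 : ℝ)),
    hz2.eventually (eventually_gt_atTop (K : ℝ)),
    hlog.eventually (eventually_gt_atTop (256 : ℝ))] with X hmain hwX hz1 hzK hL H hHK hHA G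
  by_cases hc : (∃ q : ℕ, Squarefree q ∧ (∀ p : ℕ, p.Prime → p ∣ q → Real.log X ^ (3 / 8 * ε) ≤ p ∧
          (p : ℝ) < Real.log X ^ ε) ∧ (q : ℝ) ≤ Real.exp (Real.log X ^ ε) ∧
        ∃ a : ℕ, (a : ℝ) ≤ Real.log X ^ B ∧ Nat.Coprime (Ft H a) q ∧
          dl N * (G / cls (Ft H) q) ≤
            |(cnt (Pt H) X (2 * X) q a : ℝ) - G / cls (Ft H) q|)
  · exact Or.inl hc
  · right
    intro S hS1 hSB
    have hHne : H.Nonempty := by
      rw [← card_pos, hHK]
      exact hK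
    have hlf : ∀ p ∈ UJ (Real.log X ^ (3 / 4 * ε)) N (range N), 0 < lf (Ft H) p := by
      intro p hp
      apply lf_tuple_pos H p (UJ_prime _ _ _ p hp)
      rw [hHK]
      have := (mem_UJ_bounds _ hz1 N hN1 p hp).1
      exact_mod_cast hzK.trans_le this
    have hw' : ∀ j < N, ∏ p ∈ win (Real.log X ^ (3 / 4 * ε)) N j, lf (Ft H) p ≤
        1 - 1 / (4 * N) := by
      intro j hj
      refine le_trans ?_ (hwX j hj)
      apply Finset.prod_le_prod
      · intro p hp
        apply (hlf p _).le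
        unfold UJ
        rw [mem_biUnion]
        exact ⟨j, mem_range.2 hj, hp⟩
      · intro p hp
        apply lf_tuple_le H hHne p
        unfold win at hp
        exact (mem_filter.1 hp).2
    have hFS : ∀ s ∈ Icc 1 S, ((Ft H s : ℕ) : ℝ) < (Real.log X ^ (3 / 4 * ε)) ^ ((N : ℝ) / 2) := by
      intro s hs
      rw [mem_Icc] at hs
      set L := Real.log X with hLdef
      have hL0 : 0 < L := by linarith
      have hL1 : 1 ≤ L := by linarith
      have hLB : L ^ B ≤ L ^ M := pow_le_pow_right₀ hL1 (by rw [hM]; exact le_max_right _ _)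
      have hLA : L ^ A ≤ L ^ M := pow_le_pow_right₀ hL1 (by rw [hM]; exact le_max_left _ _)
      have hsS : (s : ℝ) ≤ L ^ M := ((by exact_mod_cast hs.2 : (s : ℝ) ≤ S).trans hSB).trans hLB
      have h1 : ((Ft H s : ℕ) : ℝ) ≤ (2 * L ^ M) ^ K := by
        unfold Ft
        push_cast
        calc ∏ h ∈ H, ((s : ℝ) + h) ≤ ∏ h ∈ H, (2 * L ^ M) := by
              apply Finset.prod_le_prod
              · intro h _; positivity
              · intro h hh
                have := (hHA h hh).trans hLA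
                linarith
          _ = (2 * L ^ M) ^ K := by rw [prod_const, hHK]
      refine h1.trans_lt ?_
      rw [← Real.rpow_mul hL0.le]
      have h2 : (L : ℝ) ^ (((K * M : ℕ) : ℝ) + ((K * M : ℕ) : ℝ) / 8) ≤ L ^ (3 / 4 * ε * ((N : ℝ) / 2)) := by
        apply Real.rpow_le_rpow_of_exponent_le hL1
        rw [div_le_iff₀ hε] at hNle
        nlinarith
      refine lt_of_lt_of_le ?_ h2
      rw [Real.rpow_add hL0, Real.rpow_natCast, mul_pow, ← pow_mul, mul_comm M K, mul_comm]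
      apply mul_lt_mul_of_pos_left _ (by positivity)
      have h3 : (256 : ℝ) ^ (1 / 8 : ℝ) = 2 := by
        rw [show (256 : ℝ) = 2 ^ (8 : ℝ) by norm_num, ← Real.rpow_mul (by norm_num)]
        norm_num
      have h4 : (2 : ℝ) < L ^ (1 / 8 : ℝ) := by
        rw [← h3]
        exact Real.rpow_lt_rpow (by norm_num) hL (by norm_num)
      have h5 : (L : ℝ) ^ (((K * M : ℕ) : ℝ) / 8) = (L ^ (1 / 8 : ℝ)) ^ (K * M) := by
        rw [← Real.rpow_natCast, ← Real.rpow_mul hL0.le]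
        congr 1
        ring
      rw [h5]
      calc (2 : ℝ) ^ K ≤ 2 ^ (K * M) := pow_le_pow_right₀ (by norm_num) (Nat.le_mul_of_pos_right K hM1)
        _ < (L ^ (1 / 8 : ℝ)) ^ (K * M) :=
          pow_lt_pow_left₀ h4 (by norm_num) (Nat.mul_pos hK hM1).ne'
    rcases hmain (Ft H) (Pt H) (sys_tuple H) hlf hw' S hS1 hSB hFS G with h | h
    · exact absurd h hc
    · exact h

end Pool.Agent.K4H14.MT
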